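import Pool.Agent.Helper79_XQ.Gcom

/-!
Squad XQ (MP_5b0138_an), part E4, module GC1: bad virtual loops are long (germ GE1).
-/

set_option autoImplicit false

namespace Pool.Agent.XQ.K4.H79

open MeasureTheory Complex Filter Topology ProbabilityTheory Pool.Agent.H16Iso Pool.Agent.H62T
  Pool.Agent.H16F Pool.Agent.H38KL Pool.Agent.AEU
open scoped ENNReal NNReal

lemma seg_re (a s : ℝ) : (exp ((a : ℂ) * I) * (s : ℂ)).re = Real.cos a * s := by
  rw [mul_comm, Complex.re_ofReal_mul, Complex.exp_ofReal_mul_I_re, mul_comm]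

lemma seg_im (a s : ℝ) : (exp ((a : ℂ) * I) * (s : ℂ)).im = Real.sin a * s := by
  rw [mul_comm, Complex.im_ofReal_mul, Complex.exp_ofReal_mul_I_im, mul_comm]

lemma seg_re' (a s : ℝ) : (exp (-((a : ℂ) * I)) * (s : ℂ)).re = Real.cos a * s := by
  have := seg_re (-a) s
  rwa [Complex.ofReal_neg, neg_mul, Real.cos_neg] at this

lemma seg_im' (a s : ℝ) : (exp (-((a : ℂ) * I)) * (s : ℂ)).im = -Real.sin a * s := by
  have := seg_im (-a) s
  rwa [Complex.ofReal_neg, neg_mul, Real.sin_neg] at this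

/-- the linear functional of label `1` near a point -/
lemma lin1 (η : ℝ) (z w : ℂ) :
    -Real.sin η * z.re - Real.cos η * z.im
      ≤ -Real.sin η * w.re - Real.cos η * w.im + 2 * ‖z - w‖ := by
  have h1 : |z.re - w.re| ≤ ‖z - w‖ := by
    have := Complex.abs_re_le_norm (z - w)
    rwa [Complex.sub_re] at this
  have h2 : |z.im - w.im| ≤ ‖z - w‖ := by
    have := Complex.abs_im_le_norm (z - w)
    rwa [Complex.sub_im] at this
  have h3 : |Real.sin η * (z.re - w.re)| ≤ ‖z - w‖ := by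
    rw [abs_mul]
    calc |Real.sin η| * |z.re - w.re| ≤ 1 * ‖z - w‖ :=
          mul_le_mul (Real.abs_sin_le_one η) h1 (abs_nonneg _) zero_le_one
      _ = ‖z - w‖ := one_mul _
  have h4 : |Real.cos η * (z.im - w.im)| ≤ ‖z - w‖ := by
    rw [abs_mul]
    calc |Real.cos η| * |z.im - w.im| ≤ 1 * ‖z - w‖ :=
          mul_le_mul (Real.abs_cos_le_one η) h2 (abs_nonneg _) zero_le_one
      _ = ‖z - w‖ := one_mul _
  have h5 := (abs_le.1 h3).1
  have h6 := (abs_le.1 h4).1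
  nlinarith

theorem gc1 (hvch : VchStatement) (hvpl : VplStatement) (hgvc : GvcStatement)
    (hpte : PteStatement) : Gc1Statement := by
  intro η1 η2 δ1 δ2 ρ H
  have hL : HyL δ1 δ2 ρ := H.toHyL
  obtain ⟨g0, g1, q0, r0, -⟩ := hpte δ1 δ2 ρ hL
  set γ := gE δ1 δ2 with hγ
  have hγ2 : γ < η2 := by
    have := H.c
    rw [hγ]; unfold gE; linarith
  have pi := Real.pi_pos
  have a1 := H.a1
  have a2 := H.a2
  have a3 := H.a3
  have s1 : 0 < Real.sin (η2 + γ) := Real.sin_pos_of_pos_of_lt_pi (by linarith) (by linarith)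
  have s2 : 0 < Real.sin (η2 - γ) := Real.sin_pos_of_pos_of_lt_pi (by linarith) (by linarith)
  have s3 : 0 < Real.sin (η1 + η2) := Real.sin_pos_of_pos_of_lt_pi (by linarith) (by linarith)
  have c2 : 0 < Real.cos η2 := Real.cos_pos_of_mem_Ioo ⟨by linarith, by linarith⟩
  have c1 : Real.cos η1 < 0 := Real.cos_neg_of_pi_div_two_lt_of_lt a1 (by linarith)
  -- the smallness constant
  set ε := min (sr δ1 δ2 ρ * Real.sin (η2 + γ)) (sq δ1 δ2 ρ * Real.sin (η2 - γ)) / 4 with hε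
  have m1 : 0 < sr δ1 δ2 ρ * Real.sin (η2 + γ) := mul_pos r0 s1
  have m2 : 0 < sq δ1 δ2 ρ * Real.sin (η2 - γ) := mul_pos q0 s2
  have ε0 : 0 < ε := by rw [hε]; exact div_pos (lt_min m1 m2) (by norm_num)
  have ε1 : 4 * ε ≤ sr δ1 δ2 ρ * Real.sin (η2 + γ) := by
    have := min_le_left (sr δ1 δ2 ρ * Real.sin (η2 + γ)) (sq δ1 δ2 ρ * Real.sin (η2 - γ))
    rw [hε]; linarith
  have ε2 : 4 * ε ≤ sq δ1 δ2 ρ * Real.sin (η2 - γ) := by
    have := min_le_right (sr δ1 δ2 ρ * Real.sin (η2 + γ)) (sq δ1 δ2 ρ * Real.sin (η2 - γ))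
    rw [hε]; linarith
  obtain ⟨e1, e10, hG⟩ := hgvc δ1 δ2 ρ ε hL ε0
  obtain ⟨dV, dV0, hV⟩ := hvch δ1 δ2 ρ e1 hL e10
  refine ⟨min e1 dV, lt_min e10 dV0, fun ζ ζ0 hζ => ?_⟩
  refine ⟨min e1 dV, min (min e1 dV) (min ε (dV * Real.sin (η1 + η2))), lt_min e10 dV0,
    lt_min (lt_min e10 dV0) (lt_min ε0 (mul_pos dV0 s3)), fun δ δ0 hδ => ?_⟩
  intro n _ x A hn hB hC hS hx0 hx1
  have hδ1 : δ < e1 := hδ.trans_le ((min_le_left _ _).trans (min_le_left _ _))
  have hδ2 : δ < dV := hδ.trans_le ((min_le_left _ _).trans (min_le_right _ _))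
  have hδ3 : δ < ε := hδ.trans_le ((min_le_right _ _).trans (min_le_left _ _))
  have hδ4 : δ < dV * Real.sin (η1 + η2) :=
    hδ.trans_le ((min_le_right _ _).trans (min_le_right _ _))
  by_contra hlt
  push Not at hlt
  -- a visit of `0` at which `1` is avoided is near the vertex
  have key : ∀ l : ℕ, 0 < l → l < n → 0 ∈ A (Fin.ofNat n l) → 1 ∉ A (Fin.ofNat n l) →
      ∃ k m : ℕ, Fs A k ∧ Ls A m ∧ k < l ∧ l < m ∧
      (∀ l : ℕ, 0 < l → l ≤ k → ∃ s : ℝ, sr δ1 δ2 ρ ≤ s ∧ s ≤ LE δ1 δ2 ρ ∧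
        ‖zV (uE η1 η2 δ1 δ2) (hE δ1 δ2 ρ) x l - exp (gE δ1 δ2 * I) * s‖ < ε) ∧
      ∀ l : ℕ, m ≤ l → l < n → ∃ s : ℝ, sq δ1 δ2 ρ ≤ s ∧ s ≤ LE δ1 δ2 ρ ∧
        ‖zV (uE η1 η2 δ1 δ2) (hE δ1 δ2 ρ) x l - exp (-(gE δ1 δ2 * I)) * s‖ < ε := by
    intro l l0 ln h0 h1
    have v0 := vis0 hvpl hn x A hS l0 ln h0
    have v1 := avo1 hvpl hn x A hC l0 ln h1
    have hre : (zV (uE η1 η2 δ1 δ2) (hE δ1 δ2 ρ) x l).re ≤ dV := by
      set z := zV (uE η1 η2 δ1 δ2) (hE δ1 δ2 ρ) x l with hz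
      have h2 : z.re * Real.sin (η1 + η2) < δ := by
        rw [Real.sin_add]
        have h3 : Real.cos η2 ≤ 1 := Real.cos_le_one η2
        have h4 := mul_lt_mul_of_pos_right v0 c2
        have h5 := mul_pos_of_neg_of_neg v1 c1
        nlinarith only [h4, h5, δ0, h3]
      by_contra hh
      push Not at hh
      have := mul_lt_mul_of_pos_right hh s3
      linarith
    have hnear := near hpte hvpl hL hV hn x A hδ2.le (hζ.le.trans (min_le_right _ _))
      (min_le_right _ _) hx0 hx1 hlt l0 ln hre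
    exact hG δ ζ δ0 hδ1 ζ0 (hζ.trans_le (min_le_left _ _)) η1 η2 n x A l hn l0 ln hnear hC hS
      hx0 hx1 (hlt.trans_le (by linarith [min_le_left e1 dV]))
  rcases hB with ⟨⟨k, m, hk, hm, hkm, hO, hEv⟩, l1, l10, l1n, hl1⟩ | ⟨hP, hO, hEv⟩
  · obtain ⟨l0, kl, lm, h0⟩ := hO 0 (Finset.mem_singleton_self 0)
    have h1 : 1 ∉ A (Fin.ofNat n l0) := by
      have := hEv l0 kl lm
      rwa [Finset.disjoint_singleton_right] at this
    obtain ⟨k', m', hk', hm', -, -, hs1, hs2⟩ := key l0 (hk.1.trans kl) (lm.trans hm.2.1) h0 h1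
    have ek := Fs_unique hk hk'
    have em := Ls_unique hm hm'
    subst ek
    subst em
    rw [Finset.disjoint_singleton_right, not_not] at hl1
    have v1 := vis1 hvpl hn x A hS l10 l1n hl1
    have hlk : l1 ≤ k ∨ m ≤ l1 := by
      by_contra hh
      push Not at hh
      have := hEv l1 hh.1 hh.2
      rw [Finset.disjoint_singleton_right] at this
      exact this hl1
    rcases hlk with hlk | hlk
    · obtain ⟨s, hs, -, hd⟩ := hs1 l1 l10 hlk
      have h2 := lin1 η2 (zV (uE η1 η2 δ1 δ2) (hE δ1 δ2 ρ) x l1) (exp (gE δ1 δ2 * I) * s)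
      rw [seg_re, seg_im] at h2
      have h3 : Real.sin (η2 + γ) = Real.sin η2 * Real.cos γ + Real.cos η2 * Real.sin γ :=
        Real.sin_add _ _
      have h4 : sr δ1 δ2 ρ * Real.sin (η2 + γ) ≤ s * Real.sin (η2 + γ) :=
        mul_le_mul_of_nonneg_right hs s1.le
      rw [← hγ] at h2 hd
      nlinarith only [ε1, δ0, hδ3, v1, hd, h2, h4, r0, h3, hs]
    · obtain ⟨s, hs, -, hd⟩ := hs2 l1 hlk l1n
      have h2 := lin1 η2 (zV (uE η1 η2 δ1 δ2) (hE δ1 δ2 ρ) x l1) (exp (-(gE δ1 δ2 * I)) * s)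
      rw [seg_re', seg_im'] at h2
      have h3 : Real.sin (η2 - γ) = Real.sin η2 * Real.cos γ - Real.cos η2 * Real.sin γ :=
        Real.sin_sub _ _
      have h4 : sq δ1 δ2 ρ * Real.sin (η2 - γ) ≤ s * Real.sin (η2 - γ) :=
        mul_le_mul_of_nonneg_right hs s2.le
      rw [← hγ] at h2 hd
      nlinarith only [ε2, δ0, hδ3, v1, hd, h2, h4, q0, h3, hs]
  · obtain ⟨l0, l00, l0n, h0⟩ := hO 0 (Finset.mem_singleton_self 0)
    have h1 : 1 ∉ A (Fin.ofNat n l0) := by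
      have := hEv l0 l00 l0n
      rwa [Finset.disjoint_singleton_right] at this
    obtain ⟨k, m, hk, hm, kl, lm, -, -⟩ := key l0 l00 l0n h0 h1
    refine hP ⟨k, m, hk, hm, kl.trans lm, ?_, ?_⟩
    · intro s hs
      rw [Finset.mem_singleton] at hs
      subst hs
      exact ⟨l0, kl, lm, h0⟩
    · intro l h2 h3
      exact hEv l (hk.1.trans h2) (h3.trans hm.2.1)

end Pool.Agent.XQ.K4.H79
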