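import Pool.Agent.Helper79_XQ.Gc1

/-!
Squad XQ (MP_5b0138_an), part E4, module GC2: bad virtual loops are long (germ GE2).
-/

set_option autoImplicit false

namespace Pool.Agent.XQ.K4.H79

open MeasureTheory Complex Filter Topology ProbabilityTheory Pool.Agent.H16Iso Pool.Agent.H62T
  Pool.Agent.H16F Pool.Agent.H38KL Pool.Agent.AEU
open scoped ENNReal NNReal

/-- the perimeter of the hull of a chain with two intermediate points, in either order -/
lemma lam_chain (a b p q : ℂ) {T : ℝ}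
    (h : ‖a - p‖ + ‖p - q‖ + ‖q - b‖ ≤ T ∨ ‖a - q‖ + ‖q - p‖ + ‖p - b‖ ≤ T) :
    lam (hf ![p, q, b, a]) ≤ T + ‖b - a‖ := by
  rcases h with h | h
  · have h1 := Pool.Agent.AEU.H69.per.2.2.1 p q b a
    linarith
  · have h1 := Pool.Agent.AEU.H69.per.2.2.1 q p b a
    have h2 := H84.hf_perm ![p, q, b, a] (Equiv.swap 0 1)
    have h3 : (fun i => (![p, q, b, a] : Fin 4 → ℂ) (Equiv.swap 0 1 i)) = ![q, p, b, a] := by
      funext i
      fin_cases i <;> simp [Equiv.swap_apply_def]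
    rw [h3] at h2
    rw [← h2]
    linarith

/-- the vectors of the certificate -/
lemma cert (γ L : ℝ) (x y : ℂ) (hs : 0 ≤ (exp (γ * I) * (L - y) - exp (-(γ * I)) * x).im) :
    ∃ ψ : ℝ, 3 * Real.pi / 2 - γ - |γ| ≤ ψ ∧ 3 * Real.pi / 2 ≤ ψ ∧ ψ ≤ 5 * Real.pi / 2 ∧
    ip (-I * (exp (ψ * I) - exp ((3 * Real.pi / 2 - γ : ℝ) * I))) (exp (-(γ * I)) * x)
        + ip (-I * (exp ((5 * Real.pi / 2 + γ : ℝ) * I) - exp (ψ * I))) (exp (γ * I) * (L - y))
      = x.re + L - y.re + ‖exp (-(γ * I)) * x - exp (γ * I) * (L - y)‖ := by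
  set w := exp (γ * I) * (L - y) - exp (-(γ * I)) * x with hw
  have ha0 : 0 ≤ arg w := Complex.arg_nonneg_iff.2 hs
  have ha1 : arg w ≤ Real.pi := Complex.arg_le_pi w
  have pi := Real.pi_pos
  refine ⟨arg w + 3 * Real.pi / 2, ?_, by linarith, by linarith, ?_⟩
  · have := neg_abs_le γ
    linarith
  have e1 : exp (((arg w + 3 * Real.pi / 2 : ℝ) : ℂ) * I) = -I * exp (arg w * I) := by
    have h1 : (((arg w + 3 * Real.pi / 2 : ℝ) : ℂ) * I)
        = arg w * I + ((2 * Real.pi * I) + (-(Real.pi / 2) * I)) := by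
      push_cast; ring
    rw [h1, Complex.exp_add, Complex.exp_add, Complex.exp_two_pi_mul_I]
    have h2 : exp (-(Real.pi / 2 : ℂ) * I) = -I := by
      rw [neg_mul, Complex.exp_neg, Complex.exp_pi_div_two_mul_I, Complex.inv_I]
    rw [h2]; ring
  have e2 : exp (((3 * Real.pi / 2 - γ : ℝ) : ℂ) * I) = -I * exp (-(γ * I)) := by
    have h1 : (((3 * Real.pi / 2 - γ : ℝ) : ℂ) * I)
        = -(γ * I) + ((2 * Real.pi * I) + (-(Real.pi / 2) * I)) := by
      push_cast; ring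
    rw [h1, Complex.exp_add, Complex.exp_add, Complex.exp_two_pi_mul_I]
    have h2 : exp (-(Real.pi / 2 : ℂ) * I) = -I := by
      rw [neg_mul, Complex.exp_neg, Complex.exp_pi_div_two_mul_I, Complex.inv_I]
    rw [h2]; ring
  have e3 : exp (((5 * Real.pi / 2 + γ : ℝ) : ℂ) * I) = I * exp (γ * I) := by
    have h1 : (((5 * Real.pi / 2 + γ : ℝ) : ℂ) * I)
        = γ * I + ((2 * Real.pi * I) + ((Real.pi / 2) * I)) := by
      push_cast; ring
    rw [h1, Complex.exp_add, Complex.exp_add, Complex.exp_two_pi_mul_I,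
      Complex.exp_pi_div_two_mul_I]
    ring
  rw [e1, e2, e3]
  have f1 : -I * (-I * exp (arg w * I) - -I * exp (-(γ * I)))
      = exp (-(γ * I)) - exp (arg w * I) := by
    linear_combination (exp (arg w * I) - exp (-(γ * I))) * Complex.I_mul_I
  have f2 : -I * (I * exp (γ * I) - -I * exp (arg w * I))
      = exp (γ * I) + exp (arg w * I) := by
    linear_combination (-exp (γ * I) - exp (arg w * I)) * Complex.I_mul_I
  rw [f1, f2]
  -- inner products
  have g1 : ip (exp (-(γ * I))) (exp (-(γ * I)) * x) = x.re := by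
    have h1 : exp (-((γ : ℂ) * I)) = exp (((-γ : ℝ) : ℂ) * I) := by
      rw [Complex.ofReal_neg, neg_mul]
    rw [h1]
    unfold ip
    rw [Complex.mul_re, Complex.mul_im, Complex.exp_ofReal_mul_I_re, Complex.exp_ofReal_mul_I_im]
    linear_combination x.re * Real.sin_sq_add_cos_sq (-γ)
  have g2 : ip (exp (γ * I)) (exp (γ * I) * (L - y)) = L - y.re := by
    unfold ip
    rw [Complex.mul_re, Complex.mul_im, Complex.exp_ofReal_mul_I_re, Complex.exp_ofReal_mul_I_im]
    simp only [Complex.sub_re, Complex.sub_im, Complex.ofReal_re, Complex.ofReal_im]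
    linear_combination (L - y.re) * Real.sin_sq_add_cos_sq γ
  have g3 : ip (exp (arg w * I)) w = ‖w‖ := by
    have h1 : w = ‖w‖ * exp (arg w * I) := (Complex.norm_mul_exp_arg_mul_I w).symm
    have h2 : w.re = ‖w‖ * Real.cos (arg w) := by
      conv_lhs => rw [h1]
      rw [Complex.re_ofReal_mul, Complex.exp_ofReal_mul_I_re]
    have h3 : w.im = ‖w‖ * Real.sin (arg w) := by
      conv_lhs => rw [h1]
      rw [Complex.im_ofReal_mul, Complex.exp_ofReal_mul_I_im]
    unfold ip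
    rw [Complex.exp_ofReal_mul_I_re, Complex.exp_ofReal_mul_I_im]
    linear_combination Real.cos (arg w) * h2 + Real.sin (arg w) * h3
      + ‖w‖ * Real.sin_sq_add_cos_sq (arg w)
  have g4 : ip (exp (-(γ * I)) - exp (arg w * I)) (exp (-(γ * I)) * x)
      = ip (exp (-(γ * I))) (exp (-(γ * I)) * x) - ip (exp (arg w * I)) (exp (-(γ * I)) * x) := by
    unfold ip
    simp only [Complex.sub_re, Complex.sub_im]
    ring
  have g5 : ip (exp (γ * I) + exp (arg w * I)) (exp (γ * I) * (L - y))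
      = ip (exp (γ * I)) (exp (γ * I) * (L - y))
        + ip (exp (arg w * I)) (exp (γ * I) * (L - y)) := by
    unfold ip
    simp only [Complex.add_re, Complex.add_im]
    ring
  have g6 : ip (exp (arg w * I)) w = ip (exp (arg w * I)) (exp (γ * I) * (L - y))
      - ip (exp (arg w * I)) (exp (-(γ * I)) * x) := by
    rw [hw]
    exact H84.ip_sub' _ _ _
  rw [g4, g5, g1, g2]
  have g7 : ‖exp (-(γ * I)) * x - exp (γ * I) * (L - y)‖ = ‖w‖ := by
    rw [hw, norm_sub_rev]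
  rw [g7]
  linarith

theorem gc2 (hce2 : Ce2Statement) (hvch : VchStatement) (hvpl : VplStatement)
    (hgvc : GvcStatement) (hpte : PteStatement) : Gc2Statement := by
  intro η1 η2 δ1 δ2 ρ H
  have hL : HyL δ1 δ2 ρ := H.toHyL
  obtain ⟨g0, g1, q0, r0, hqr, -⟩ := hpte δ1 δ2 ρ hL
  set γ := gE δ1 δ2 with hγ
  set L := LE δ1 δ2 ρ with hLE
  have hL0 : 0 < L := by linarith
  have hγ2 : γ + Real.pi / 2 < η1 + η2 := by
    have := H.c
    rw [hγ]; unfold gE; linarith
  have pi := Real.pi_pos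
  have sγ : 0 < Real.sin γ := Real.sin_pos_of_pos_of_lt_pi g0 (by linarith)
  have cγ : 0 < Real.cos γ := Real.cos_pos_of_mem_Ioo ⟨by linarith, g1⟩
  have cγ1 : Real.cos γ ≤ 1 := Real.cos_le_one γ
  obtain ⟨c0, c1, κ, hc0, hc1, hκ, hrel1, hrel2, hcert⟩ :=
    hce2 η1 η2 γ H.a1 H.a2 H.a3 H.a4 g0 hγ2
  obtain ⟨e1, e10, hG⟩ := hgvc δ1 δ2 ρ 1 hL zero_lt_one
  obtain ⟨dV, dV0, hV⟩ := hvch δ1 δ2 ρ e1 hL e10
  -- the smallness constant
  set M := (c0 + c1) * (1 + (c0 + c1 + 3) / κ) with hM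
  have hM0 : 0 < M := by
    rw [hM]
    have : 0 < (c0 + c1 + 3) / κ := div_pos (by linarith) hκ
    exact mul_pos (by linarith) (by linarith)
  set μ := min (min e1 dV) (2 * Real.cos γ * dV / M) with hμ
  have hμ0 : 0 < μ := lt_min (lt_min e10 dV0) (div_pos (by positivity) hM0)
  have hμ1 : μ ≤ e1 := (min_le_left _ _).trans (min_le_left _ _)
  have hμ2 : μ ≤ dV := (min_le_left _ _).trans (min_le_right _ _)
  have hμ3 : μ * M ≤ 2 * Real.cos γ * dV := by
    have : μ ≤ 2 * Real.cos γ * dV / M := min_le_right _ _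
    rwa [le_div_iff₀ hM0] at this
  refine ⟨min (min e1 dV) (Real.sin γ * L / 4),
    lt_min (lt_min e10 dV0) (by positivity), fun ζ ζ0 hζ => ?_⟩
  refine ⟨μ, min μ (L / 4), hμ0, lt_min hμ0 (by positivity), fun δ δ0 hδ => ?_⟩
  intro n _ x A hn hB hC hS hx0 hx1
  have hδ1 : δ < μ := hδ.trans_le (min_le_left _ _)
  have hδ2 : δ < L / 4 := hδ.trans_le (min_le_right _ _)
  have hζ1 : ζ < e1 := hζ.trans_le ((min_le_left _ _).trans (min_le_left _ _))
  have hζ2 : ζ < dV := hζ.trans_le ((min_le_left _ _).trans (min_le_right _ _))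
  have hζ3 : ζ < Real.sin γ * L / 4 := hζ.trans_le (min_le_right _ _)
  by_contra hlt
  push Not at hlt
  set u := uE η1 η2 δ1 δ2 with hue
  set h := K4.hE δ1 δ2 ρ with hhe
  -- endpoints
  have hz1 : zV u h x 1 = exp (γ * I) * (L - mi δ1 δ2 ρ (x 1)) := zV1 hpte hL x
  have hzn : zV u h x n = exp (-(γ * I)) * mi δ1 δ2 ρ (x 0) := zVn hpte hL hn x
  set X := mi δ1 δ2 ρ (x 0) with hX
  set Y := mi δ1 δ2 ρ (x 1) with hY
  have hx0' := hx0
  have hx1' := hx1
  obtain ⟨a1, a2, a3⟩ : |X.re - xiE δ1 δ2 ρ| < δ ∧ -ζ < X.im ∧ X.im < ζ := hx0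
  obtain ⟨b1, b2, b3⟩ : |Y.re - xiE δ1 δ2 ρ| < δ ∧ -ζ < Y.im ∧ Y.im < ζ := hx1
  rw [abs_lt] at a1 b1
  have him : 0 ≤ (exp (γ * I) * (L - Y) - exp (-(γ * I)) * X).im := by
    have h1 : exp (-((γ : ℂ) * I)) = exp (((-γ : ℝ) : ℂ) * I) := by
      rw [Complex.ofReal_neg, neg_mul]
    rw [Complex.sub_im, Complex.mul_im, Complex.mul_im, h1, Complex.exp_ofReal_mul_I_re,
      Complex.exp_ofReal_mul_I_im, Complex.exp_ofReal_mul_I_re, Complex.exp_ofReal_mul_I_im,
      Real.sin_neg, Real.cos_neg]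
    simp only [Complex.sub_re, Complex.sub_im, Complex.ofReal_re, Complex.ofReal_im]
    have h2 : Real.cos γ * (X.im + Y.im) ≤ 2 * ζ := by nlinarith only [cγ, a3, b3, cγ1, ζ0]
    have h3 : Real.sin γ * (L / 2) ≤ Real.sin γ * (L - Y.re + X.re) :=
      mul_le_mul_of_nonneg_left (by linarith) sγ.le
    linarith only [hζ3, h2, h3]
  obtain ⟨ψ, -, hψ1, hψ2, hψ⟩ := cert γ L X Y him
  -- two visits
  have two : ∀ l0 l1 : ℕ, 0 < l0 → l0 < n → 0 < l1 → l1 < n → 0 ∈ A (Fin.ofNat n l0) →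
      1 ∈ A (Fin.ofNat n l1) → (zV u h x l0).re ≤ dV ∧ (zV u h x l1).re ≤ dV := by
    intro l0 l1 h0 h0n h1 h1n hA0 hA1
    have v0 := vis0 hvpl hn x A hS h0 h0n hA0
    have v1 := vis1 hvpl hn x A hS h1 h1n hA1
    rw [← hue, ← hhe] at v0 v1
    have hlam : lam (hf ![zV u h x l0, zV u h x l1, zV u h x n, zV u h x 1])
        ≤ Lv u h x A + ‖zV u h x n - zV u h x 1‖ := by
      refine lam_chain _ _ _ _ ?_
      rcases le_total l0 l1 with hl | hl
      · exact Or.inl (chain4 hvpl x A (hu _ _ _ _) hn h0 hl h1n.le)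
      · exact Or.inr (chain4 hvpl x A (hu _ _ _ _) hn h1 hl h0n.le)
    have hc := hcert ψ ![zV u h x l0, zV u h x l1, zV u h x n, zV u h x 1] (by linarith only [g0, hψ1])
      (by linarith)
    have e0 : (![zV u h x l0, zV u h x l1, zV u h x n, zV u h x 1] : Fin 4 → ℂ) 0
      = zV u h x l0 := rfl
    have e1' : (![zV u h x l0, zV u h x l1, zV u h x n, zV u h x 1] : Fin 4 → ℂ) 1
      = zV u h x l1 := rfl
    have e2 : (![zV u h x l0, zV u h x l1, zV u h x n, zV u h x 1] : Fin 4 → ℂ) 2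
      = zV u h x n := rfl
    have e3 : (![zV u h x l0, zV u h x l1, zV u h x n, zV u h x 1] : Fin 4 → ℂ) 3
      = zV u h x 1 := rfl
    rw [e0, e1', e2, e3] at hc
    have i0 : ip (I * exp (η1 * I)) (zV u h x l0)
        = -Real.sin η1 * (zV u h x l0).re + Real.cos η1 * (zV u h x l0).im :=
      ipu0 η1 η2 δ1 δ2 _
    have i1 : ip (-(I * exp (-(η2 * I)))) (zV u h x l1)
        = -Real.sin η2 * (zV u h x l1).re - Real.cos η2 * (zV u h x l1).im :=
      ipu1 η1 η2 δ1 δ2 _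
    rw [i0, i1] at hc
    rw [hz1, hzn] at hc hlam
    set p := zV u h x l0 with hp
    set q := zV u h x l1 with hq
    set d := ‖p - q‖ with hd
    have hd0 : 0 ≤ d := norm_nonneg _
    have hk0 : -(c0 * δ) ≤ c0 * (-Real.sin η1 * p.re + Real.cos η1 * p.im) := by
      have := mul_lt_mul_of_pos_left v0 hc0
      linarith only [this]
    have hk1 : -(c1 * δ) ≤ c1 * (-Real.sin η2 * q.re - Real.cos η2 * q.im) := by
      have := mul_lt_mul_of_pos_left v1 hc1
      linarith only [this]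
    have hd1 : κ * d ≤ μ * (c0 + c1 + 3) := by
      have h1 : κ * d ≤ μ + (c0 + c1 + 2) * δ := by linarith only [hlt, a1, b1, hψ, hlam, hc, hk0, hk1]
      have h2 : (c0 + c1 + 2) * δ ≤ (c0 + c1 + 2) * μ :=
        mul_le_mul_of_nonneg_left hδ1.le (by linarith only [hc0, hc1])
      linarith
    have hd2 : d ≤ μ * ((c0 + c1 + 3) / κ) := by
      rw [← mul_div_assoc, le_div_iff₀ hκ]
      linarith only [hd1]
    have hd3 : (c0 + c1) * (δ + d) ≤ 2 * Real.cos γ * dV := by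
      refine le_trans ?_ hμ3
      rw [hM]
      have h1 : δ + d ≤ μ * (1 + (c0 + c1 + 3) / κ) := by linarith only [hδ1, hd2]
      have h2 := mul_le_mul_of_nonneg_left h1 (by linarith only [hc0, hc1] : (0:ℝ) ≤ c0 + c1)
      linarith only [h2]
    -- coordinates
    have w1 : |p.re - q.re| ≤ d := by
      have := Complex.abs_re_le_norm (p - q)
      rwa [Complex.sub_re] at this
    have w2 : |p.im - q.im| ≤ d := by
      have := Complex.abs_im_le_norm (p - q)
      rwa [Complex.sub_im] at this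
    -- Cauchy-Schwarz for unit vectors
    have cs0 : |ip (u 0) (p - q)| ≤ d := H84.ip_le_norm (hu η1 η2 δ1 δ2 0) _
    have cs1 : |ip (u 1) (p - q)| ≤ d := H84.ip_le_norm (hu η1 η2 δ1 δ2 1) _
    rw [H84.ip_sub'] at cs0 cs1
    have j0 : ip (u 0) p = -Real.sin η1 * p.re + Real.cos η1 * p.im := ipu0 η1 η2 δ1 δ2 p
    have j1 : ip (u 0) q = -Real.sin η1 * q.re + Real.cos η1 * q.im := ipu0 η1 η2 δ1 δ2 q
    have j2 : ip (u 1) p = -Real.sin η2 * p.re - Real.cos η2 * p.im := ipu1 η1 η2 δ1 δ2 p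
    have j3 : ip (u 1) q = -Real.sin η2 * q.re - Real.cos η2 * q.im := ipu1 η1 η2 δ1 δ2 q
    rw [j0, j1] at cs0
    rw [j2, j3] at cs1
    rw [abs_le] at cs0 cs1
    have k1 : -(c1 * (δ + d)) ≤ c1 * (-Real.sin η2 * p.re - Real.cos η2 * p.im) := by
      have : -(δ + d) ≤ -Real.sin η2 * p.re - Real.cos η2 * p.im := by linarith only [v1, cs1]
      have := mul_le_mul_of_nonneg_left this hc1.le
      linarith only [this]
    have k0 : -(c0 * (δ + d)) ≤ c0 * (-Real.sin η1 * q.re + Real.cos η1 * q.im) := by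
      have : -(δ + d) ≤ -Real.sin η1 * q.re + Real.cos η1 * q.im := by linarith only [v0, cs0]
      have := mul_le_mul_of_nonneg_left this hc0.le
      linarith only [this]
    have n0 : c0 * (-Real.sin η1 * p.re + Real.cos η1 * p.im)
        + c1 * (-Real.sin η2 * p.re - Real.cos η2 * p.im) = -(2 * Real.cos γ * p.re) := by
      linear_combination (-p.re) * hrel1 + p.im * hrel2
    have n1 : c0 * (-Real.sin η1 * q.re + Real.cos η1 * q.im)
        + c1 * (-Real.sin η2 * q.re - Real.cos η2 * q.im) = -(2 * Real.cos γ * q.re) := by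
      linear_combination (-q.re) * hrel1 + q.im * hrel2
    have m0 : 0 ≤ c0 * d := mul_nonneg hc0.le hd0
    have m1 : 0 ≤ c1 * d := mul_nonneg hc1.le hd0
    constructor
    · have h1 : 2 * Real.cos γ * p.re ≤ 2 * Real.cos γ * dV := by linarith only [hk0, hd3, k1, n0, m0]
      exact le_of_mul_le_mul_left h1 (by linarith only [cγ])
    · have h1 : 2 * Real.cos γ * q.re ≤ 2 * Real.cos γ * dV := by linarith only [hk1, hd3, k0, n1, m1]
      exact le_of_mul_le_mul_left h1 (by linarith only [cγ])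
  -- conclusion
  have key : ∀ l : ℕ, 0 < l → l < n → (zV u h x l).re ≤ dV →
      ∃ k m : ℕ, Fs A k ∧ Ls A m ∧ k < l ∧ l < m := by
    intro l l0 ln hre
    have hnear := near hpte hvpl hL hV hn x A (hδ1.le.trans hμ2) hζ2.le hμ2 hx0' hx1' hlt l0 ln
      hre
    obtain ⟨k, m, hk, hm, hkl, hlm, -, -⟩ := hG δ ζ δ0 (hδ1.trans_le hμ1) ζ0 hζ1 η1 η2 n x A l hn
      l0 ln hnear hC hS hx0' hx1' (hlt.trans_le (by linarith))
    exact ⟨k, m, hk, hm, hkl, hlm⟩
  rcases hB with ⟨-, l1, -, -, hl1⟩ | ⟨hP, hO, -⟩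
  · exact hl1 (Finset.disjoint_empty_right _)
  · obtain ⟨l0, l00, l0n, h0⟩ := hO 0 (by simp)
    obtain ⟨l1, l10, l1n, h1⟩ := hO 1 (by simp)
    obtain ⟨t0, t1⟩ := two l0 l1 l00 l0n l10 l1n h0 h1
    obtain ⟨k, m, hk, hm, kl, lm⟩ := key l0 l00 l0n t0
    obtain ⟨k', m', hk', hm', kl', lm'⟩ := key l1 l10 l1n t1
    have ek := Fs_unique hk hk'
    have em := Ls_unique hm hm'
    subst ek
    subst em
    refine hP ⟨k, m, hk, hm, kl.trans lm, ?_, ?_⟩
    · intro s hs
      rw [Finset.mem_insert, Finset.mem_singleton] at hs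
      rcases hs with hs | hs
      · subst hs
        exact ⟨l0, kl, lm, h0⟩
      · subst hs
        exact ⟨l1, kl', lm', h1⟩
    · intro l h2 h3
      exact Finset.disjoint_empty_right _

end Pool.Agent.XQ.K4.H79
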