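import Pool.Agent.Helper36_XQ.Stmt5
import Pool.Agent.Helper84_XQ.Pol4

/-!
Squad XQ (MP_5b0138_an), part E4, modules GC1 and GC2: common lemmas on virtual loops.
-/

set_option autoImplicit false

namespace Pool.Agent.XQ.K4.H79

open MeasureTheory Complex Filter Topology ProbabilityTheory Pool.Agent.H16Iso Pool.Agent.H62T
  Pool.Agent.H16F Pool.Agent.H38KL Pool.Agent.AEU
open scoped ENNReal NNReal

lemma nrm_exp (a : ℝ) : ‖exp ((a : ℂ) * I)‖ = 1 := Complex.norm_exp_ofReal_mul_I a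

lemma nrm_exp' (a : ℝ) : ‖exp (-((a : ℂ) * I))‖ = 1 := by
  have := nrm_exp (-a)
  rwa [Complex.ofReal_neg, neg_mul] at this

lemma hu (η1 η2 δ1 δ2 : ℝ) : ∀ s, ‖uE η1 η2 δ1 δ2 s‖ = 1 := by
  intro s
  fin_cases s
  · show ‖I * exp (η1 * I)‖ = 1
    rw [norm_mul, nrm_exp, Complex.norm_I, one_mul]
  · show ‖-(I * exp (-(η2 * I)))‖ = 1
    rw [norm_neg, norm_mul, nrm_exp', Complex.norm_I, one_mul]
  · exact nrm_exp _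
  · exact nrm_exp _

lemma uc0 (u : Fin 4 → ℂ) : uc4 u 0 = u 0 := by
  simp [uc4, Function.update]

lemma uc1 (u : Fin 4 → ℂ) : uc4 u 1 = u 1 := by
  simp [uc4, Function.update]

lemma hc0 (h : Fin 4 → ℝ) : hc4 h 0 = h 0 := by
  simp [hc4, Function.update]

lemma hc1 (h : Fin 4 → ℝ) : hc4 h 1 = h 1 := by
  simp [hc4, Function.update]

lemma ipu0 (η1 η2 δ1 δ2 : ℝ) (z : ℂ) :
    ip (uE η1 η2 δ1 δ2 0) z = -Real.sin η1 * z.re + Real.cos η1 * z.im := by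
  show ip (I * exp (η1 * I)) z = _
  unfold ip
  simp [Complex.exp_ofReal_mul_I_re, Complex.exp_ofReal_mul_I_im]

lemma ipu1 (η1 η2 δ1 δ2 : ℝ) (z : ℂ) :
    ip (uE η1 η2 δ1 δ2 1) z = -Real.sin η2 * z.re - Real.cos η2 * z.im := by
  show ip (-(I * exp (-(η2 * I)))) z = _
  have h1 : exp (-((η2 : ℂ) * I)) = exp (((-η2 : ℝ) : ℂ) * I) := by
    rw [Complex.ofReal_neg, neg_mul]
  rw [h1]
  unfold ip
  simp [Complex.exp_ofReal_mul_I_re, Complex.exp_ofReal_mul_I_im, -Complex.ofReal_neg]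
  ring

lemma Fs_unique {n : ℕ} [NeZero n] {A : Fin n → Finset (Fin 4)} {k k' : ℕ} (h : Fs A k)
    (h' : Fs A k') : k = k' := by
  rcases lt_trichotomy k k' with h1 | h1 | h1
  · exact absurd h.2.2.1 (h'.2.2.2 k h.1 h1)
  · exact h1
  · exact absurd h'.2.2.1 (h.2.2.2 k' h'.1 h1)

lemma Ls_unique {n : ℕ} [NeZero n] {A : Fin n → Finset (Fin 4)} {k k' : ℕ} (h : Ls A k)
    (h' : Ls A k') : k = k' := by
  rcases lt_trichotomy k k' with h1 | h1 | h1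
  · exact absurd h'.2.2.1 (h.2.2.2 k' h1 h'.2.1)
  · exact h1
  · exact absurd h.2.2.1 (h'.2.2.2 k h1 h.2.1)

lemma chain4 (hvpl : VplStatement) {u : Fin 4 → ℂ} {h : Fin 4 → ℝ} {n : ℕ} [NeZero n]
    (x : Fin n → ℂ) (A : Fin n → Finset (Fin 4)) (hu : ∀ s, ‖u s‖ = 1) (hn : 3 ≤ n)
    {a b : ℕ} (h1 : 1 ≤ a) (h2 : a ≤ b) (h3 : b ≤ n) :
    ‖zV u h x 1 - zV u h x a‖ + ‖zV u h x a - zV u h x b‖ + ‖zV u h x b - zV u h x n‖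
      ≤ Lv u h x A := by
  have h4 := (hvpl u h n x A hu hn).1 (n - 1) (fun i => i.1 + 1)
    (fun i j hij => by simpa using hij) (by simp) (by simp; omega)
  have h5 : ∑ i : Fin (n - 1), ‖zV u h x ((fun i : Fin (n - 1 + 1) => i.1 + 1) i.castSucc)
      - zV u h x ((fun i : Fin (n - 1 + 1) => i.1 + 1) i.succ)‖
      = ∑ k ∈ Finset.Ico 1 n, ‖zV u h x k - zV u h x (k + 1)‖ := by
    rw [Finset.sum_Ico_eq_sum_range, Finset.sum_range]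
    refine Finset.sum_congr rfl fun i _ => ?_
    simp only [Fin.val_castSucc, Fin.val_succ]
    rw [add_comm 1 i.1]
  rw [h5] at h4
  have tele : ∀ {a b : ℕ}, a ≤ b → ‖zV u h x a - zV u h x b‖
      ≤ ∑ k ∈ Finset.Ico a b, ‖zV u h x k - zV u h x (k + 1)‖ := by
    intro a b hab
    have := dist_le_Ico_sum_dist (fun k => zV u h x k) hab
    simpa only [dist_eq_norm] using this
  have t1 := tele h1
  have t2 := tele h2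
  have t3 := tele h3
  have s1 := Finset.sum_Ico_consecutive (fun k => ‖zV u h x k - zV u h x (k + 1)‖) h1 h2
  have s2 := Finset.sum_Ico_consecutive (fun k => ‖zV u h x k - zV u h x (k + 1)‖)
    (h1.trans h2) h3
  have h6 := norm_nonneg (x 0 - x 1)
  linarith

/-- the endpoints of the virtual chain -/
lemma zV1 {η1 η2 δ1 δ2 ρ : ℝ} (hpte : PteStatement) (hL : HyL δ1 δ2 ρ) {n : ℕ} [NeZero n]
    (x : Fin n → ℂ) : zV (uE η1 η2 δ1 δ2) (hE δ1 δ2 ρ) x 1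
      = exp (gE δ1 δ2 * I) * (LE δ1 δ2 ρ - mi δ1 δ2 ρ (x 1)) := by
  obtain ⟨-, -, -, -, -, -, -, -, -, -, -, -, -, h⟩ := hpte δ1 δ2 ρ hL
  unfold zV
  rw [if_pos rfl]
  exact (h η1 η2 (x 1)).2.1

lemma zVn {η1 η2 δ1 δ2 ρ : ℝ} (hpte : PteStatement) (hL : HyL δ1 δ2 ρ) {n : ℕ} [NeZero n]
    (hn : 3 ≤ n) (x : Fin n → ℂ) : zV (uE η1 η2 δ1 δ2) (hE δ1 δ2 ρ) x n
      = exp (-(gE δ1 δ2 * I)) * mi δ1 δ2 ρ (x 0) := by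
  obtain ⟨-, -, -, -, -, -, -, -, -, -, -, -, -, h⟩ := hpte δ1 δ2 ρ hL
  unfold zV
  rw [if_neg (by omega), if_pos rfl]
  exact (h η1 η2 (x 0)).1

/-- a visit of the vertex is near the vertex -/
lemma near {η1 η2 δ1 δ2 ρ : ℝ} (hpte : PteStatement) (hvpl : VplStatement)
    (hL : HyL δ1 δ2 ρ) {dV ε : ℝ}
    (hV : ∀ x y p : ℂ, |x.re - xiE δ1 δ2 ρ| < dV → |x.im| < dV → |y.re - xiE δ1 δ2 ρ| < dV →
      |y.im| < dV → p.re ≤ dV →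
      ‖exp (gE δ1 δ2 * I) * (LE δ1 δ2 ρ - y) - p‖ + ‖p - exp (-(gE δ1 δ2 * I)) * x‖
        < LE δ1 δ2 ρ + dV → ‖p‖ < ε)
    {n : ℕ} [NeZero n] (hn : 3 ≤ n) (x : Fin n → ℂ) (A : Fin n → Finset (Fin 4)) {δ ζ e : ℝ}
    (hδ : δ ≤ dV) (hζ : ζ ≤ dV) (he : e ≤ dV)
    (hx0 : x 0 ∈ WE δ1 δ2 ρ δ ζ) (hx1 : x 1 ∈ WE δ1 δ2 ρ δ ζ)
    (hlv : Lv (uE η1 η2 δ1 δ2) (hE δ1 δ2 ρ) x A < LE δ1 δ2 ρ + e) {l : ℕ} (h0 : 0 < l)
    (hl : l < n) (hre : (zV (uE η1 η2 δ1 δ2) (hE δ1 δ2 ρ) x l).re ≤ dV) :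
    ‖zV (uE η1 η2 δ1 δ2) (hE δ1 δ2 ρ) x l‖ < ε := by
  have h1 := chain4 hvpl (u := uE η1 η2 δ1 δ2) (h := hE δ1 δ2 ρ) x A (hu _ _ _ _) hn h0
    (le_refl l) hl.le
  rw [sub_self, norm_zero, add_zero, zV1 hpte hL, zVn hpte hL hn] at h1
  obtain ⟨a1, a2, a3⟩ := hx0
  obtain ⟨b1, b2, b3⟩ := hx1
  refine hV (mi δ1 δ2 ρ (x 0)) (mi δ1 δ2 ρ (x 1)) _ (a1.trans_le hδ) ?_ (b1.trans_le hδ) ?_ hre ?_
  · rw [abs_lt]; constructor <;> linarith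
  · rw [abs_lt]; constructor <;> linarith
  · linarith

/-- the data at a visit of label `s ∈ {0, 1}` -/
lemma vis0 {η1 η2 δ1 δ2 ρ : ℝ} (hvpl : VplStatement) {n : ℕ} [NeZero n] (hn : 3 ≤ n)
    (x : Fin n → ℂ) (A : Fin n → Finset (Fin 4)) {δ : ℝ}
    (hS : Shv (uE η1 η2 δ1 δ2) (hE δ1 δ2 ρ) δ x A) {l : ℕ} (h0 : 0 < l) (hl : l < n)
    (h : 0 ∈ A (Fin.ofNat n l)) :
    -δ < -Real.sin η1 * (zV (uE η1 η2 δ1 δ2) (hE δ1 δ2 ρ) x l).re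
      + Real.cos η1 * (zV (uE η1 η2 δ1 δ2) (hE δ1 δ2 ρ) x l).im := by
  have h1 := ((hvpl (uE η1 η2 δ1 δ2) (hE δ1 δ2 ρ) n x A (hu _ _ _ _) hn).2.1 δ hS).2 l 0 h0 hl h
  rw [uc0, hc0, ipu0] at h1
  have h2 : hE δ1 δ2 ρ 0 = 0 := rfl
  linarith

lemma vis1 {η1 η2 δ1 δ2 ρ : ℝ} (hvpl : VplStatement) {n : ℕ} [NeZero n] (hn : 3 ≤ n)
    (x : Fin n → ℂ) (A : Fin n → Finset (Fin 4)) {δ : ℝ}
    (hS : Shv (uE η1 η2 δ1 δ2) (hE δ1 δ2 ρ) δ x A) {l : ℕ} (h0 : 0 < l) (hl : l < n)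
    (h : 1 ∈ A (Fin.ofNat n l)) :
    -δ < -Real.sin η2 * (zV (uE η1 η2 δ1 δ2) (hE δ1 δ2 ρ) x l).re
      - Real.cos η2 * (zV (uE η1 η2 δ1 δ2) (hE δ1 δ2 ρ) x l).im := by
  have h1 := ((hvpl (uE η1 η2 δ1 δ2) (hE δ1 δ2 ρ) n x A (hu _ _ _ _) hn).2.1 δ hS).2 l 1 h0 hl h
  rw [uc1, hc1, ipu1] at h1
  have h2 : hE δ1 δ2 ρ 1 = 0 := rfl
  linarith

lemma avo1 {η1 η2 δ1 δ2 ρ : ℝ} (hvpl : VplStatement) {n : ℕ} [NeZero n] (hn : 3 ≤ n)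
    (x : Fin n → ℂ) (A : Fin n → Finset (Fin 4))
    (hC : Cnv (uE η1 η2 δ1 δ2) (hE δ1 δ2 ρ) x A) {l : ℕ} (h0 : 0 < l) (hl : l < n)
    (h : 1 ∉ A (Fin.ofNat n l)) :
    -Real.sin η2 * (zV (uE η1 η2 δ1 δ2) (hE δ1 δ2 ρ) x l).re
      - Real.cos η2 * (zV (uE η1 η2 δ1 δ2) (hE δ1 δ2 ρ) x l).im < 0 := by
  have h1 := ((hvpl (uE η1 η2 δ1 δ2) (hE δ1 δ2 ρ) n x A (hu _ _ _ _) hn).2.2 hC l 1 h0 hl h).1
  rw [uc1, hc1, ipu1] at h1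
  have h2 : hE δ1 δ2 ρ 1 = 0 := rfl
  linarith

end Pool.Agent.XQ.K4.H79
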